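import Pool.Agent.W819.EN.Stm

set_option autoImplicit false

namespace Pool.Agent.W333.EN
open Pool.Agent.W819.EN Filter Topology Real Set

noncomputable section

/-- `sinh x / x` -/
def shc : ℝ → ℝ := dslope sinh 0

lemma shc_zero : shc 0 = 1 := by simp [shc, dslope_same]

lemma shc_ne {x : ℝ} (h : x ≠ 0) : shc x = sinh x / x := by
  rw [shc, dslope_of_ne _ h, slope_def_field]; simp

lemma cont_shc : Continuous shc := by
  rw [continuous_iff_continuousAt]
  intro x
  by_cases h : x = 0
  · subst h
    exact continuousAt_dslope_same.2 differentiable_sinh.differentiableAt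
  · exact (continuousAt_dslope_of_ne h).2 continuous_sinh.continuousAt

lemma shc_pos {x : ℝ} (hx : 0 ≤ x) : 0 < shc x := by
  rcases hx.eq_or_lt with h | h
  · rw [← h, shc_zero]; exact one_pos
  · rw [shc_ne h.ne']
    exact div_pos (sinh_pos_iff.2 h) h

lemma sinc_pos' {x : ℝ} (hx : 0 ≤ x) (hp : x < π) : 0 < sinc x := by
  rcases hx.eq_or_lt with h | h
  · rw [← h, sinc_zero]; exact one_pos
  · rw [sinc_of_ne_zero h.ne']
    exact div_pos (sin_pos_of_pos_of_lt_pi h hp) h

/-- `x cot x` is strictly decreasing. -/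
lemma anti1 : StrictAntiOn (fun θ : ℝ => cos θ / sinc θ) (Icc 0 (π / 2)) := by
  apply strictAntiOn_of_deriv_neg (convex_Icc _ _)
  · apply ContinuousOn.div continuous_cos.continuousOn continuous_sinc.continuousOn
    intro x hx
    exact (sinc_pos' hx.1 (by linarith [hx.2, pi_pos])).ne'
  · intro x hx
    rw [interior_Icc] at hx
    have hs : 0 < sin x := sin_pos_of_pos_of_lt_pi hx.1 (by linarith [hx.2, pi_pos])
    have hd : HasDerivAt (fun θ : ℝ => θ * cos θ / sin θ)
        (((1 * cos x + x * (-sin x)) * sin x - x * cos x * cos x) / sin x ^ 2) x :=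
      ((hasDerivAt_id x).mul (hasDerivAt_cos x)).div (hasDerivAt_sin x) hs.ne'
    have he : (fun θ : ℝ => cos θ / sinc θ) =ᶠ[𝓝 x] (fun θ : ℝ => θ * cos θ / sin θ) := by
      filter_upwards [eventually_ne_nhds hx.1.ne'] with y hy
      rw [sinc_of_ne_zero hy, div_div_eq_mul_div, mul_comm]
    rw [(hd.congr_of_eventuallyEq he).deriv]
    have hs1 : sin x < x := sin_lt hx.1
    have hc : cos x ≤ 1 := cos_le_one x
    have h1 := sin_sq_add_cos_sq x
    apply div_neg_of_neg_of_pos _ (by positivity)
    have e : (1 * cos x + x * (-sin x)) * sin x - x * cos x * cos x =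
        cos x * sin x - x * (sin x ^ 2 + cos x ^ 2) := by ring
    rw [e, h1]
    nlinarith

/-- `x coth x` is strictly increasing. -/
lemma mono2 : StrictMonoOn (fun x : ℝ => cosh x / shc x) (Ici 0) := by
  apply strictMonoOn_of_deriv_pos (convex_Ici _)
  · apply ContinuousOn.div continuous_cosh.continuousOn cont_shc.continuousOn
    intro x hx
    exact (shc_pos hx).ne'
  · intro x hx
    rw [interior_Ici] at hx
    have hx0 : 0 < x := hx
    have hs : 0 < sinh x := sinh_pos_iff.2 hx0
    have hd : HasDerivAt (fun θ : ℝ => θ * cosh θ / sinh θ)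
        (((1 * cosh x + x * sinh x) * sinh x - x * cosh x * cosh x) / sinh x ^ 2) x :=
      ((hasDerivAt_id x).mul (hasDerivAt_cosh x)).div (hasDerivAt_sinh x) hs.ne'
    have he : (fun θ : ℝ => cosh θ / shc θ) =ᶠ[𝓝 x] (fun θ : ℝ => θ * cosh θ / sinh θ) := by
      filter_upwards [eventually_ne_nhds hx0.ne'] with y hy
      rw [shc_ne hy, div_div_eq_mul_div, mul_comm]
    rw [(hd.congr_of_eventuallyEq he).deriv]
    have hs1 : x < sinh x := self_lt_sinh_iff.2 hx0
    have hc : 1 < cosh x := one_lt_cosh.2 hx0.ne'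
    have h1 := cosh_sq x
    apply div_pos _ (by positivity)
    have e : (1 * cosh x + x * sinh x) * sinh x - x * cosh x * cosh x =
        cosh x * sinh x - x * (cosh x ^ 2 - sinh x ^ 2) := by ring
    rw [e, h1]
    nlinarith

/-- The logarithmic derivative (up to a factor) at `u = exp s / 2`. -/
def K (u : ℝ) : ℝ := u / (sinc (arccos u) * shc (arcosh (max u 1)))

lemma arcosh_max_of_le {u : ℝ} (h : u ≤ 1) : arcosh (max u 1) = 0 := by
  rw [max_eq_right h]; exact arcosh_zero

lemma K_le {u : ℝ} (h0 : 0 ≤ u) (h : u ≤ 1) : K u = cos (arccos u) / sinc (arccos u) := by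
  rw [K, arcosh_max_of_le h, shc_zero, mul_one, cos_arccos (by linarith) h]

lemma K_ge {u : ℝ} (h : 1 ≤ u) : K u = cosh (arcosh u) / shc (arcosh u) := by
  rw [K, max_eq_left h, arccos_of_one_le h, sinc_zero, one_mul, cosh_arcosh h]

lemma cont_am : Continuous (fun u : ℝ => arcosh (max u 1)) :=
  continuousOn_arcosh.comp_continuous (continuous_id.max continuous_const)
    (fun _ => Set.mem_Ici.2 (le_max_right _ _))

lemma cont_K {u : ℝ} (h0 : 0 ≤ u) : ContinuousAt K u := by
  apply ContinuousAt.div continuousAt_id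
  · apply ContinuousAt.mul
    · exact (continuous_sinc.comp continuous_arccos).continuousAt
    · exact (cont_shc.comp cont_am).continuousAt
  · apply mul_ne_zero
    · apply (sinc_pos' (arccos_nonneg _) _).ne'
      have := arccos_le_pi_div_two.2 h0
      linarith [pi_pos]
    · exact (shc_pos (arcosh_nonneg (le_max_right _ _))).ne'

lemma K_mono1 : StrictMonoOn K (Icc 0 1) := by
  intro a ha b hb hab
  rw [K_le ha.1 ha.2, K_le hb.1 hb.2]
  apply anti1
  · exact ⟨arccos_nonneg _, arccos_le_pi_div_two.2 hb.1⟩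
  · exact ⟨arccos_nonneg _, arccos_le_pi_div_two.2 ha.1⟩
  · exact strictAntiOn_arccos ⟨by linarith [ha.1], ha.2⟩ ⟨by linarith [hb.1], hb.2⟩ hab

lemma K_mono2 : StrictMonoOn K (Ici 1) := by
  intro a ha b hb hab
  have ha' : 1 ≤ a := ha
  have hb' : 1 ≤ b := hb
  rw [K_ge ha, K_ge hb]
  apply mono2
  · exact arcosh_nonneg ha
  · exact arcosh_nonneg hb
  · exact (arcosh_lt_arcosh (by linarith) (by linarith)).2 hab

lemma K_mono {a b : ℝ} (h0 : 0 ≤ a) (hab : a < b) : K a < K b := by
  rcases le_or_gt b 1 with h | h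
  · exact K_mono1 ⟨h0, by linarith⟩ ⟨by linarith, h⟩ hab
  · rcases le_or_gt 1 a with h' | h'
    · exact K_mono2 h' h.le hab
    · exact (K_mono1 ⟨h0, h'.le⟩ ⟨zero_le_one, le_rfl⟩ h').trans (K_mono2 (le_refl (1 : ℝ)) h.le h)

/-- The exponent as a function of `u`. -/
def Fu (u : ℝ) : ℝ := π ^ 2 / 9 - arccos u ^ 2 + arcosh (max u 1) ^ 2

lemma cont_Fu : Continuous Fu :=
  (continuous_const.sub (continuous_arccos.pow 2)).add (cont_am.pow 2)

lemma hasDerivAt_Fu {u : ℝ} (h0 : 0 < u) (h1 : u ≠ 1) : HasDerivAt Fu (2 * (K u / u)) u := by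
  rcases lt_or_gt_of_ne h1 with h | h
  · have d1 := ((hasDerivAt_arccos (by linarith : u ≠ -1) h1).pow 2).const_sub (π ^ 2 / 9)
    have d2 : HasDerivAt (fun u : ℝ => arcosh (max u 1) ^ 2) 0 u := by
      apply (hasDerivAt_const u (0 : ℝ)).congr_of_eventuallyEq
      filter_upwards [eventually_lt_nhds h] with y hy
      rw [arcosh_max_of_le hy.le]
      norm_num
    have d3 := d1.add d2
    have hs : 0 < arccos u := arccos_pos.2 h
    have e : -(((2 : ℕ) : ℝ) * arccos u ^ (2 - 1) * (-(1 / √(1 - u ^ 2)))) + 0 = 2 * (K u / u) := by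
      rw [K_le h0.le h.le, cos_arccos (by linarith) h.le, sinc_of_ne_zero hs.ne', sin_arccos]
      have hq : 0 < √(1 - u ^ 2) := sqrt_pos.2 (by nlinarith)
      push_cast
      field_simp
      ring
    rw [e] at d3
    exact d3
  · have d1 : HasDerivAt (fun u : ℝ => π ^ 2 / 9 - arccos u ^ 2) 0 u := by
      apply (hasDerivAt_const u (π ^ 2 / 9)).congr_of_eventuallyEq
      filter_upwards [eventually_gt_nhds h] with y hy
      rw [arccos_of_one_le hy.le]
      norm_num
    have d2 : HasDerivAt (fun u : ℝ => arcosh (max u 1)) (√(u ^ 2 - 1))⁻¹ u := by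
      apply (hasDerivAt_arcosh h).congr_of_eventuallyEq
      filter_upwards [eventually_gt_nhds h] with y hy
      rw [max_eq_left hy.le]
    have d3 := d1.add (d2.pow 2)
    have hs : 0 < arcosh u := arcosh_pos h
    have e : 0 + ((2 : ℕ) : ℝ) * arcosh (max u 1) ^ (2 - 1) * (√(u ^ 2 - 1))⁻¹ =
        2 * (K u / u) := by
      rw [K_ge h.le, cosh_arcosh h.le, shc_ne hs.ne', sinh_arcosh h.le, max_eq_left h.le]
      have hq : 0 < √(u ^ 2 - 1) := sqrt_pos.2 (by nlinarith)
      push_cast
      field_simp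
      ring
    rw [e] at d3
    exact d3

/-- The derivative of `Lam`. -/
def mm (s : ℝ) : ℝ := 3 / (2 * π ^ 2) * K (exp s / 2)

lemma Lam_eq (s : ℝ) : Lam s = 3 / (4 * π ^ 2) * Fu (exp s / 2) := rfl

lemma cont_mm : Continuous mm := by
  rw [continuous_iff_continuousAt]
  intro s
  apply ContinuousAt.mul continuousAt_const
  have h1 : ContinuousAt (fun s : ℝ => exp s / 2) s := (continuous_exp.div_const 2).continuousAt
  exact ContinuousAt.comp (g := K) (cont_K (by positivity)) h1

lemma hasDerivAt_Lam (s : ℝ) : HasDerivAt Lam (mm s) s := by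
  have key : ∀ y, y ≠ log 2 → HasDerivAt Lam (mm y) y := by
    intro y hy
    have hu0 : 0 < exp y / 2 := by positivity
    have hu1 : exp y / 2 ≠ 1 := by
      intro h
      apply hy
      have : exp y = 2 := by linarith
      rw [← this, log_exp]
    have d1 : HasDerivAt (fun y : ℝ => exp y / 2) (exp y / 2) y := (hasDerivAt_exp y).div_const 2
    have d2 := ((hasDerivAt_Fu hu0 hu1).comp y d1).const_mul (3 / (4 * π ^ 2))
    have e : 3 / (4 * π ^ 2) * (2 * (K (exp y / 2) / (exp y / 2)) * (exp y / 2)) = mm y := by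
      rw [mm, mul_assoc 2, div_mul_cancel₀ _ hu0.ne']
      field_simp
      ring
    rw [e] at d2
    exact d2
  by_cases h : s = log 2
  · subst h
    apply hasDerivAt_of_hasDerivAt_of_ne key
    · have hc : Continuous Lam :=
        continuous_const.mul (cont_Fu.comp (continuous_exp.div_const 2))
      exact hc.continuousAt
    · exact cont_mm.continuousAt
  · exact key s h

lemma dL_eq : dL = mm := funext fun s => (hasDerivAt_Lam s).deriv

/-- LEGA. -/
theorem t_LEGA : LegA where
  der s := by rw [dL_eq]; exact hasDerivAt_Lam s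
  mono := by
    rw [dL_eq]
    intro a b hab
    apply mul_lt_mul_of_pos_left _ (by positivity)
    apply K_mono (by positivity)
    have := exp_lt_exp.2 hab
    linarith
  cont := by rw [dL_eq]; exact cont_mm
  bot := by
    rw [dL_eq]
    have h1 : Tendsto (fun s : ℝ => exp s / 2) atBot (𝓝 0) := by
      have := tendsto_exp_atBot.div_const 2
      rwa [zero_div] at this
    have h2 : Tendsto K (𝓝 0) (𝓝 0) := by
      have := cont_K (le_refl 0)
      have e : K 0 = 0 := by rw [K, zero_div]
      rw [ContinuousAt, e] at this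
      exact this
    have h3 := (h2.comp h1).const_mul (3 / (2 * π ^ 2))
    rw [mul_zero] at h3
    exact h3
  top := by
    rw [dL_eq]
    have h1 : ∀ s : ℝ, log 2 ≤ s → 3 / (2 * π ^ 2) * (s - log 2) ≤ mm s := by
      intro s hs
      apply mul_le_mul_of_nonneg_left _ (by positivity)
      have hu : 1 ≤ exp s / 2 := by
        have := exp_le_exp.2 hs
        rw [exp_log (by norm_num : (0 : ℝ) < 2)] at this
        linarith
      have ha := arcosh_nonneg hu
      have h2 : s - log 2 ≤ arcosh (exp s / 2) := by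
        have h3 : exp s / 2 ≤ exp (arcosh (exp s / 2)) := by
          rw [exp_arcosh hu]
          linarith [sqrt_nonneg ((exp s / 2) ^ 2 - 1)]
        have h4 : exp (s - log 2) = exp s / 2 := by
          rw [exp_sub, exp_log (by norm_num : (0 : ℝ) < 2)]
        rw [← h4, exp_le_exp] at h3
        rwa [← h4]
      refine h2.trans ?_
      rw [K_ge hu]
      rcases ha.eq_or_lt with h | h
      · rw [← h, shc_zero, cosh_zero]; norm_num
      · rw [shc_ne h.ne', div_div_eq_mul_div, le_div_iff₀ (sinh_pos_iff.2 h), mul_comm]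
        apply mul_le_mul_of_nonneg_right _ ha
        exact (sinh_lt_cosh _).le
    apply tendsto_atTop_mono' _ ((eventually_ge_atTop (log 2)).mono h1)
    apply Tendsto.const_mul_atTop (by positivity)
    exact tendsto_atTop_add_const_right _ _ tendsto_id
  typ := by
    rw [dL_eq, mm, exp_zero, K_le (by norm_num) (by norm_num), cos_arccos (by norm_num) (by norm_num)]
    have h1 : arccos (1 / 2) = π / 3 := by
      rw [← cos_pi_div_three, arccos_cos (by positivity) (by linarith [pi_pos])]
    rw [h1, sinc_of_ne_zero (by positivity), sin_pi_div_three, nuc]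
    have h3 : √3 ≠ 0 := by positivity
    field_simp
  zero := by
    rw [Lam_eq, exp_zero, Fu, arcosh_max_of_le (by norm_num)]
    have h1 : arccos (1 / 2) = π / 3 := by
      rw [← cos_pi_div_three, arccos_cos (by positivity) (by linarith [pi_pos])]
    rw [h1]
    ring
  low s := by
    have h0 : 0 ≤ arccos (exp s / 2) := arccos_nonneg _
    have h1 : arccos (exp s / 2) ≤ π / 2 := arccos_le_pi_div_two.2 (by positivity)
    have h2 : π ^ 2 / 9 - π ^ 2 / 4 ≤ Fu (exp s / 2) := by
      unfold Fu
      nlinarith [sq_nonneg (arcosh (max (exp s / 2) 1))]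
    rw [Lam_eq]
    have h3 : 3 / (4 * π ^ 2) * (π ^ 2 / 9 - π ^ 2 / 4) = -(5 / 48) := by
      field_simp
      norm_num
    rw [← h3]
    exact mul_le_mul_of_nonneg_left h2 (by positivity)

end

end Pool.Agent.W333.EN
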